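import Mathlib

namespace Pool.Agent.Results.MP_b7e006_co.Fails

def Alliance {V : Type} [Fintype V] [DecidableEq V] (G : SimpleGraph V) [DecidableRel G.Adj]
    (D : Finset V) : Prop :=
  D.Nonempty ∧ ∀ v ∈ D, (G.neighborFinset v \ D).card ≤ (insert v (G.neighborFinset v) ∩ D).card

def LocMin {V : Type} [Fintype V] [DecidableEq V] (G : SimpleGraph V) [DecidableRel G.Adj]
    (D : Finset V) : Prop :=
  Alliance G D ∧ ∀ v ∈ D, ¬ Alliance G (D.erase v)

def edges : List (ℕ × ℕ) :=
  [(1, 0), (3, 1), (3, 2), (4, 3), (5, 1), (5, 2), (5, 3), (5, 4), (6, 1), (6, 2), (6, 3), (6, 4),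
    (6, 5), (7, 0), (7, 1), (7, 2), (7, 3), (7, 4), (7, 5), (7, 6)]

def adj (u v : Fin 8) : Bool := edges.contains (u.val, v.val) || edges.contains (v.val, u.val)

def K : SimpleGraph (Fin 8) where
  Adj u v := adj u v = true
  symm := ⟨fun u v h => by rwa [adj, Bool.or_comm]⟩
  loopless := ⟨by decide⟩

instance : DecidableRel K.Adj := fun u v => inferInstanceAs (Decidable (adj u v = true))

instance (D : Finset (Fin 8)) : Decidable (Alliance K D) := by
  unfold Alliance
  infer_instance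

lemma key : ∀ D : Finset (Fin 8), 0 ∈ D → Alliance K D → ∃ v ∈ D, Alliance K (D.erase v) := by
  decide +kernel

theorem result : ∃ (G : SimpleGraph (Fin 8)) (_ : DecidableRel G.Adj) (v : Fin 8),
    2 ≤ G.minDegree ∧ ∀ D : Finset (Fin 8), LocMin G D → v ∉ D := by
  refine ⟨K, inferInstance, 0, K.le_minDegree_of_forall_le_degree 2 (by decide +kernel), ?_⟩
  intro D hD h0
  obtain ⟨v, hv, h⟩ := key D h0 hD.1
  exact hD.2 v hv h

end Pool.Agent.Results.MP_b7e006_co.Fails
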